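import Pool.Agent.R999.FATrial

/-!
# Fermi-Amaldi TFW theory: adding an electron can raise the energy

For `z = 1` the Fermi-Amaldi TFW energies satisfy `E(1) + 3/100 ≤ E(2)`.

* Upper bound for `E(1)`: the trial density `(b³/8π) e^{-b|x|}` with `b = 5/4`.
* Lower bound for `E(2)`: the gradient term is bounded below by the potential of the comparison
  function `(1+2|x|)^{-3/2}`, the `5/3` term by Young's inequality with the profile
  `(9/5)/(1+5|x|/4)`, the repulsion by positive definiteness of the Coulomb kernel, tested with the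
  charge density `s/(π|x|(|x|+s)³)`, `s = 9/4`, whose potential is `2/(|x|+s)`.
-/

set_option autoImplicit false

open MeasureTheory Filter Topology Set
open scoped ENNReal NNReal ContDiff

namespace Pool.Agent.Results.MP_8f8f86_mp.ExtraElectronCosts

/-- Three dimensional Euclidean space. -/
abbrev R3 := EuclideanSpace ℝ (Fin 3)

/-- The constant `A = 0.1859`. -/
noncomputable def A : ℝ := 0.1859

/-- The constant `γ = (3π²)^{2/3}`. -/
noncomputable def γ : ℝ := (3 * Real.pi ^ 2) ^ ((2:ℝ) / 3)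

/-- `ρ` is a density and `g` is the weak gradient of `ρ^{1/2}`: `ρ ≥ 0`, `ρ ∈ L¹ ∩ L^{5/3}` and
`g = ∇ρ^{1/2} ∈ L²` in the sense of distributions. -/
structure Admissible (ρ : R3 → ℝ) (g : R3 → R3) : Prop where
  nonneg : ∀ x, 0 ≤ ρ x
  integrable : Integrable ρ
  integrable_rpow : Integrable (fun x => ρ x ^ (5/3 : ℝ))
  grad_memLp : MemLp g 2
  grad_weak : ∀ φ : R3 → ℝ, ContDiff ℝ ∞ φ → HasCompactSupport φ → ∀ v : R3,
    ∫ x, √(ρ x) * fderiv ℝ φ x v = -∫ x, inner ℝ (g x) v * φ x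

/-- The Coulomb energy `D(ρ,ρ)`. -/
noncomputable def D (ρ : R3 → ℝ) : ℝ := 1/2 * ∫ x, ∫ y, ρ x * ρ y / ‖x - y‖

/-- The Fermi-Amaldi TFW functional `𝓔_N(ρ)` of the atom with nuclear charge `z`; the argument `g`
is the weak gradient of `ρ^{1/2}`. For `N = 1` the repulsion has the factor `0`. -/
noncomputable def energy (z N : ℕ) (ρ : R3 → ℝ) (g : R3 → R3) : ℝ :=
  A * (∫ x, ‖g x‖ ^ 2) + 3/5 * γ * (∫ x, ρ x ^ (5/3 : ℝ)) - (∫ x, (z : ℝ) / ‖x‖ * ρ x)
    + (1 - 1 / (N : ℝ)) * D ρ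

/-- The values of the functional at the densities with `∫ρ = N`. -/
def energySet (z N : ℕ) : Set ℝ :=
  {e | ∃ (ρ : R3 → ℝ) (g : R3 → R3), Admissible ρ g ∧ ∫ x, ρ x = N ∧ e = energy z N ρ g}

/-- The ground state energy `E(N)` of the atom with nuclear charge `z`. -/
noncomputable def E (z N : ℕ) : ℝ := sInf (energySet z N)

lemma toSmall {ρ : R3 → ℝ} {g : R3 → R3} (h : Admissible ρ g) :
    MP_369429_mp.SmallCharge.Admissible (5/3) ρ g :=
  ⟨h.nonneg, h.integrable, h.integrable_rpow, h.grad_memLp, h.grad_weak⟩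

lemma ofSmall {ρ : R3 → ℝ} {g : R3 → R3} (h : MP_369429_mp.SmallCharge.Admissible (5/3) ρ g) :
    Admissible ρ g :=
  ⟨h.nonneg, h.integrable, h.integrable_rpow, h.grad_memLp, h.grad_weak⟩

lemma attr (z : ℕ) (ρ : R3 → ℝ) : ∫ x, (z : ℝ) / ‖x‖ * ρ x = z * ∫ x, ρ x / ‖x‖ := by
  rw [← integral_const_mul]
  refine integral_congr_ae (ae_of_all _ fun x => ?_)
  show (z : ℝ) / ‖x‖ * ρ x = z * (ρ x / ‖x‖)
  ring

/-- The functional is bounded below. -/
lemma bdd (z N : ℕ) (hz : 1 ≤ z) (hN : 1 ≤ N) : BddBelow (energySet z N) := by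
  have hz0 : (0:ℝ) < z := by exact_mod_cast hz
  have hN0 : (1:ℝ) ≤ N := by exact_mod_cast hN
  set K : ℝ := 2 * z + 0.1859 * (9 * z ^ 2 + 6 * z) with hK
  refine ⟨-(K * N), ?_⟩
  rintro e ⟨ρ, g, h, hm, rfl⟩
  have hp : (4:ℝ)/3 < 5/3 := by norm_num
  obtain ⟨g1, g2⟩ := Pool.Agent.R999.GradLow.grad_low (P := 3 * z) (a := 2) (by positivity)
    (by norm_num) hp (toSmall h)
  have iq := Pool.Agent.R999.FALow.div_norm_int hp (toSmall h)
  have hD : 0 ≤ D ρ := by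
    unfold D
    have : 0 ≤ ∫ x, ∫ y, ρ x * ρ y / ‖x - y‖ := integral_nonneg fun x => integral_nonneg fun y =>
      div_nonneg (mul_nonneg (h.nonneg x) (h.nonneg y)) (norm_nonneg _)
    linarith
  have hf : 0 ≤ 1 - 1 / (N:ℝ) := by
    have : 1 / (N:ℝ) ≤ 1 := by rw [div_le_one (by linarith)]; exact hN0
    linarith
  have hR := mul_nonneg hf hD
  have hT : 0 ≤ 3/5 * γ * (∫ x, ρ x ^ (5/3 : ℝ)) := by
    have h1 : 0 ≤ ∫ x, ρ x ^ (5/3 : ℝ) := integral_nonneg fun x => Real.rpow_nonneg (h.nonneg x) _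
    have h2 : 0 ≤ γ := by unfold γ; positivity
    positivity
  have key : z * ∫ x, ρ x / ‖x‖ ≤ 0.1859 * (∫ x, ‖g x‖ ^ 2) + K * N := by
    have h1 : z * ∫ x, ρ x / ‖x‖ ≤ ∫ x, (0.1859 * (ρ x * (2 * (3 * z) / (‖x‖ * (1 + 2 * ‖x‖)) -
        ((3 * (z:ℝ)) ^ 2 + 3 * z * 2) / (1 + 2 * ‖x‖) ^ 2)) + K * ρ x) := by
      rw [← integral_const_mul]
      refine integral_mono_ae (iq.const_mul _) ((g1.const_mul _).add (h.integrable.const_mul _)) ?_
      filter_upwards [Pool.Agent.R999.FATrial.ae_ne] with x hx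
      have hx' : 0 < ‖x‖ := norm_pos_iff.mpr hx
      have h2 : z * (1 / ‖x‖) ≤ 0.1859 * (2 * (3 * z) / (‖x‖ * (1 + 2 * ‖x‖)) -
        ((3 * (z:ℝ)) ^ 2 + 3 * z * 2) / (1 + 2 * ‖x‖) ^ 2) + K := by
        have e : 0.1859 * (2 * (3 * z) / (‖x‖ * (1 + 2 * ‖x‖)) -
            ((3 * (z:ℝ)) ^ 2 + 3 * z * 2) / (1 + 2 * ‖x‖) ^ 2) + K - z * (1 / ‖x‖) =
            0.1154 * z / (‖x‖ * (1 + 2 * ‖x‖)) + 2 * z * (1 - 1 / (1 + 2 * ‖x‖)) +
            0.1859 * (9 * z ^ 2 + 6 * z) * (1 - (1 / (1 + 2 * ‖x‖)) ^ 2) := by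
          rw [hK]
          field_simp
          ring
        have h3 : 1 / (1 + 2 * ‖x‖) ≤ 1 := by
          rw [div_le_one (by positivity)]; linarith
        have h4 : 0 ≤ 1 / (1 + 2 * ‖x‖) := by positivity
        have h5 : (1 / (1 + 2 * ‖x‖)) ^ 2 ≤ 1 := pow_le_one₀ h4 h3
        have h6 : 0 ≤ 0.1154 * z / (‖x‖ * (1 + 2 * ‖x‖)) + 2 * z * (1 - 1 / (1 + 2 * ‖x‖)) +
            0.1859 * (9 * z ^ 2 + 6 * z) * (1 - (1 / (1 + 2 * ‖x‖)) ^ 2) := by
          have h7 : 0 ≤ 1 - 1 / (1 + 2 * ‖x‖) := by linarith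
          have h8 : 0 ≤ 1 - (1 / (1 + 2 * ‖x‖)) ^ 2 := by linarith
          positivity
        rw [← e] at h6
        linarith
      have h9 := mul_le_mul_of_nonneg_left h2 (h.nonneg x)
      calc z * (ρ x / ‖x‖) = ρ x * (z * (1 / ‖x‖)) := by ring
        _ ≤ _ := h9
        _ = _ := by ring
    rw [integral_add (g1.const_mul _) (h.integrable.const_mul _), integral_const_mul,
      integral_const_mul, hm] at h1
    have h3 := mul_le_mul_of_nonneg_left g2 (by norm_num : (0:ℝ) ≤ 0.1859)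
    linarith
  unfold energy
  rw [attr]
  have hA : A = 0.1859 := rfl
  rw [hA]
  linarith

lemma nonempty (z N : ℕ) (hN : 1 ≤ N) : (energySet z N).Nonempty := by
  have hN0 : (0:ℝ) < N := by exact_mod_cast hN
  have hpi := Real.pi_pos
  have hC : (0:ℝ) < N / (8 * Real.pi) := by positivity
  refine ⟨_, _, _, ofSmall (Pool.Agent.R999.FATrial.trial_adm hC one_pos), ?_, rfl⟩
  unfold Pool.Agent.R999.FATrial.rhoT
  rw [integral_const_mul, (Pool.Agent.R999.FATrial.exp_radial one_pos).2]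
  field_simp

/-- **Disproof of Q1.** Every `E(N)` is a genuine infimum; for `z = 1` one has
`E(1) + 3/100 ≤ E(2)`; hence it is not true that `E(z+1) < E(z)` for every integer `z ≥ 1`. -/
theorem result :
    (∀ z N : ℕ, 1 ≤ z → 1 ≤ N → IsGLB (energySet z N) (E z N)) ∧
    E 1 1 + 3/100 ≤ E 1 2 ∧
    ¬ (∀ z : ℕ, 1 ≤ z → E z (z + 1) < E z z) := by
  have hglb : ∀ z N : ℕ, 1 ≤ z → 1 ≤ N → IsGLB (energySet z N) (E z N) := fun z N hz hN =>
    isGLB_csInf (nonempty z N hN) (bdd z N hz hN)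
  have h1 : E 1 1 ≤ -0.3261 := by
    obtain ⟨ρ, g, h, hm, he⟩ := Pool.Agent.R999.FATrial.upper1
    refine (csInf_le (bdd 1 1 le_rfl le_rfl) ⟨ρ, g, ofSmall h, by simpa using hm, rfl⟩).trans ?_
    unfold energy
    rw [attr]
    simp only [Nat.cast_one, div_one, sub_self, zero_mul, add_zero, one_mul]
    exact he
  have h2 : -0.2952 ≤ E 1 2 := by
    refine le_csInf (nonempty 1 2 (by norm_num)) ?_
    rintro e ⟨ρ, g, h, hm, rfl⟩
    have h3 := Pool.Agent.R999.FALow.lower2 (toSmall h) (by simpa using hm)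
    unfold energy
    rw [attr]
    refine h3.trans (le_of_eq ?_)
    unfold A γ D Pool.Agent.R999.FALow.gam
    push_cast
    ring
  have h3 : E 1 1 + 3/100 ≤ E 1 2 := by
    norm_num at h1 h2 ⊢
    linarith
  refine ⟨hglb, h3, fun hc => ?_⟩
  have := hc 1 le_rfl
  norm_num at this
  linarith

end Pool.Agent.Results.MP_8f8f86_mp.ExtraElectronCosts
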